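import Pool.Agent.Helper23.EC.DGoalsN

set_option autoImplicit false

namespace Pool.Agent.Helper76.EC.D_N8

open EC237

/-- `(1+x)^2 <= K e^{cx}` -/
theorem quadExp (c : ℝ) (hc : 0 < c) (x : ℝ) (hx : 0 ≤ x) :
    Real.exp (-(c * x)) ≤ (1 + 2 / c + 2 / c ^ 2) / (1 + x) ^ 2 := by
  have hcx : 0 ≤ c * x := by positivity
  have h1 : 1 ≤ Real.exp (c * x) := Real.one_le_exp hcx
  have h2 : c * x ≤ Real.exp (c * x) := by
    have := Real.add_one_le_exp (c * x)
    linarith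
  have h3 : (c * x) ^ 2 / 2 ≤ Real.exp (c * x) := by
    have := Real.quadratic_le_exp_of_nonneg hcx
    nlinarith
  have hx1 : 0 < (1 + x) ^ 2 := by positivity
  rw [Real.exp_neg, le_div_iff₀ hx1, inv_mul_le_iff₀ (Real.exp_pos _)]
  have e1 : 2 * x = 2 / c * (c * x) := by field_simp
  have e2 : x ^ 2 = 2 / c ^ 2 * ((c * x) ^ 2 / 2) := by field_simp
  have i1 : 2 / c * (c * x) ≤ 2 / c * Real.exp (c * x) := by
    apply mul_le_mul_of_nonneg_left h2; positivity
  have i2 : 2 / c ^ 2 * ((c * x) ^ 2 / 2) ≤ 2 / c ^ 2 * Real.exp (c * x) := by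
    apply mul_le_mul_of_nonneg_left h3; positivity
  calc (1 + x) ^ 2 = 1 + 2 * x + x ^ 2 := by ring
    _ ≤ Real.exp (c * x) + 2 / c * Real.exp (c * x) + 2 / c ^ 2 * Real.exp (c * x) := by
        rw [e1, e2]; linarith
    _ = Real.exp (c * x) * (1 + 2 / c + 2 / c ^ 2) := by ring

/-- `K/(1+a)^2 <= K (1+|a-b|)/((1+a)(1+b))` -/
theorem cmp (K a b : ℝ) (hK : 0 ≤ K) (ha : 0 ≤ a) (hb : 0 ≤ b) :
    K / (1 + a) ^ 2 ≤ K * (1 + |a - b|) / ((1 + a) * (1 + b)) := by
  have h1 : 1 + b ≤ (1 + a) * (1 + |a - b|) := by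
    have := neg_abs_le (a - b)
    have h0 := abs_nonneg (a - b)
    nlinarith
  rw [div_le_div_iff₀ (by positivity) (by positivity)]
  have : K * ((1 + a) * (1 + b)) ≤ K * ((1 + a) * ((1 + a) * (1 + |a - b|))) := by
    apply mul_le_mul_of_nonneg_left _ hK
    apply mul_le_mul_of_nonneg_left h1 (by positivity)
  calc K * ((1 + a) * (1 + b)) ≤ K * ((1 + a) * ((1 + a) * (1 + |a - b|))) := this
    _ = K * (1 + |a - b|) * (1 + a) ^ 2 := by ring

theorem absInt (m : ℤ) (hm : m ≠ 0) : (1 : ℝ) ≤ |(m : ℝ)| := by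
  have h : (1 : ℤ) ≤ |m| := Int.one_le_abs hm
  have : ((1 : ℤ) : ℝ) ≤ ((|m| : ℤ) : ℝ) := by exact_mod_cast h
  simpa using this

theorem thm (hN7 : N7) : N8 := by
  intro y hy
  obtain ⟨C, c, hC, hc, H⟩ := hN7 y hy
  set K : ℝ := 1 + 2 / c + 2 / c ^ 2 with hK
  have hKpos : 0 < K := by positivity
  refine ⟨2 * C * K + 2 * Real.pi + 2 * C, by positivity, ?_⟩
  intro r m al r' m' al' hal hal' hr hr'
  obtain ⟨a1, a2, -⟩ := H r m al hal
  obtain ⟨b1, b2, -⟩ := H r' m' al' hal'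
  have hm0 : (0 : ℝ) ≤ |(m : ℝ)| := abs_nonneg _
  have hm0' : (0 : ℝ) ≤ |(m' : ℝ)| := abs_nonneg _
  set a : ℝ := |(m : ℝ)| with hadef
  set b : ℝ := |(m' : ℝ)| with hbdef
  have hD : 0 ≤ |a - b| := abs_nonneg _
  by_cases hm : m = 0
  · have ha0 : a = 0 := by rw [hadef, hm]; simp
    have hle : ‖hS y r m al 0 - hS y r' m' al' 0‖ ≤ 2 * C := by
      have h1 : C / (1 + a) ≤ C := div_le_self hC.le (by linarith)
      have h2 : C / (1 + b) ≤ C := div_le_self hC.le (by linarith)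
      have := norm_sub_le (hS y r m al 0) (hS y r' m' al' 0)
      linarith
    have hq : (1 + |a - b|) / ((1 + a) * (1 + b)) = 1 := by
      rw [ha0]
      have : |(0:ℝ) - b| = b := by rw [zero_sub, abs_neg, abs_of_nonneg hm0']
      rw [this]
      field_simp
      ring_nf
    rw [mul_div_assoc, hq, mul_one]
    have : 0 ≤ 2 * C * K + 2 * Real.pi := by positivity
    linarith
  by_cases hm' : m' = 0
  · have hb0 : b = 0 := by rw [hbdef, hm']; simp
    have hle : ‖hS y r m al 0 - hS y r' m' al' 0‖ ≤ 2 * C := by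
      have h1 : C / (1 + a) ≤ C := div_le_self hC.le (by linarith)
      have h2 : C / (1 + b) ≤ C := div_le_self hC.le (by linarith)
      have := norm_sub_le (hS y r m al 0) (hS y r' m' al' 0)
      linarith
    have hq : (1 + |a - b|) / ((1 + a) * (1 + b)) = 1 := by
      rw [hb0]
      have : |a - 0| = a := by rw [sub_zero, abs_of_nonneg hm0]
      rw [this]
      field_simp
      ring_nf
    rw [mul_div_assoc, hq, mul_one]
    have : 0 ≤ 2 * C * K + 2 * Real.pi := by positivity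
    linarith
  have ha1 : 1 ≤ a := absInt m hm
  have hb1 : 1 ≤ b := absInt m' hm'
  have A := a2 hr hm
  have B := b2 hr' hm'
  have EA := (quadExp c hc a hm0).trans (cmp K a b hKpos.le hm0 hm0')
  have EB := (quadExp c hc b hm0').trans (cmp K b a hKpos.le hm0' hm0)
  rw [abs_sub_comm b a, mul_comm (1 + b) (1 + a)] at EB
  set Q : ℝ := (1 + |a - b|) / ((1 + a) * (1 + b)) with hQ
  have EA' : Real.exp (-(c * a)) ≤ K * Q := by rw [hQ, ← mul_div_assoc]; exact EA
  have EB' : Real.exp (-(c * b)) ≤ K * Q := by rw [hQ, ← mul_div_assoc]; exact EB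
  have hQ0 : 0 ≤ Q := by rw [hQ]; positivity
  have P1 : ‖((Real.pi / (2 * a) : ℝ) : ℂ) - ((Real.pi / (2 * b) : ℝ) : ℂ)‖ ≤ 2 * Real.pi * Q := by
    rw [← Complex.ofReal_sub, Complex.norm_real, Real.norm_eq_abs]
    have e : Real.pi / (2 * a) - Real.pi / (2 * b) = Real.pi / 2 * (b - a) / (a * b) := by
      field_simp
    rw [e, abs_div, abs_mul, abs_of_pos (by positivity : 0 < Real.pi / 2),
      abs_of_pos (by positivity : 0 < a * b), abs_sub_comm b a, hQ, ← mul_div_assoc,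
      div_le_div_iff₀ (by positivity) (by positivity)]
    have h4 : (1 + a) * (1 + b) ≤ 4 * (a * b) := by nlinarith
    calc Real.pi / 2 * |a - b| * ((1 + a) * (1 + b)) ≤ Real.pi / 2 * |a - b| * (4 * (a * b)) := by
          apply mul_le_mul_of_nonneg_left h4; positivity
      _ ≤ 2 * Real.pi * (1 + |a - b|) * (a * b) := by
          have : 0 ≤ Real.pi * (a * b) := by positivity
          nlinarith
  have T : ‖hS y r m al 0 - hS y r' m' al' 0‖ ≤
      ‖hS y r m al 0 - ((Real.pi / (2 * a) : ℝ) : ℂ)‖ +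
      ‖((Real.pi / (2 * a) : ℝ) : ℂ) - ((Real.pi / (2 * b) : ℝ) : ℂ)‖ +
      ‖hS y r' m' al' 0 - ((Real.pi / (2 * b) : ℝ) : ℂ)‖ := by
    have e : hS y r m al 0 - hS y r' m' al' 0 =
      (hS y r m al 0 - ((Real.pi / (2 * a) : ℝ) : ℂ)) +
      (((Real.pi / (2 * a) : ℝ) : ℂ) - ((Real.pi / (2 * b) : ℝ) : ℂ)) -
      (hS y r' m' al' 0 - ((Real.pi / (2 * b) : ℝ) : ℂ)) := by ring
    rw [e]
    refine (norm_sub_le _ _).trans ?_
    gcongr
    exact norm_add_le _ _
  have R1 : C * Real.exp (-(c * a)) ≤ C * (K * Q) := mul_le_mul_of_nonneg_left EA' hC.le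
  have R2 : C * Real.exp (-(c * b)) ≤ C * (K * Q) := mul_le_mul_of_nonneg_left EB' hC.le
  rw [mul_div_assoc]
  have : (2 * C * K + 2 * Real.pi + 2 * C) * Q = C * (K * Q) + 2 * Real.pi * Q + C * (K * Q) + 2 * C * Q := by
    ring
  have h5 : 0 ≤ 2 * C * Q := by positivity
  linarith

end Pool.Agent.Helper76.EC.D_N8
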